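import Pool.Agent.Helper15.FC.St2

set_option autoImplicit false

/-!
Project FC, module KAP: `kap` is small.
-/

open Polynomial

namespace Pool.Agent.Helper37.FC

open Pool.Agent.Helper15.FC

noncomputable section

open scoped Classical in
/-- monic polynomials of degree at most `n` with property `p` -/
def GG (F : Type) [Field F] [Fintype F] (p : F[X] → Prop) (n : ℕ) : Finset F[X] :=
  ((Finset.range (n + 1)).biUnion (fun i => Mn F i)).filter p

theorem mem_GG {F : Type} [Field F] [Fintype F] {p : F[X] → Prop} {n : ℕ} {f : F[X]} :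
    f ∈ GG F p n ↔ f.Monic ∧ f.natDegree ≤ n ∧ p f := by
  classical
  unfold GG
  rw [Finset.mem_filter, Finset.mem_biUnion]
  constructor
  · rintro ⟨⟨i, hi, hf⟩, hp⟩
    have h := mem_Mn.1 hf
    exact ⟨h.1, by rw [h.2]; exact Nat.lt_succ_iff.1 (Finset.mem_range.1 hi), hp⟩
  · rintro ⟨h1, h2, h3⟩
    exact ⟨⟨f.natDegree, Finset.mem_range.2 (Nat.lt_succ_of_le h2), mem_Mn.2 ⟨h1, rfl⟩⟩, h3⟩

/-- the property of `Sm` -/
def pS {F : Type} [Field F] (r : F[X]) (f : F[X]) : Prop := ∃ j : ℕ, f ∣ r ^ j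

theorem kap_eq {F : Type} [Field F] [Fintype F] (k : ℕ) (r : F[X]) (n : ℕ) :
    kap k r n = ∑ f ∈ GG F (pS r) n,
      (dk k f : ℝ) * ((Real.sqrt (qr F))⁻¹) ^ f.natDegree := by
  classical
  have h1 : GG F (pS r) n = (Finset.range (n + 1)).biUnion (fun i => Sm r i) := by
    ext f
    rw [mem_GG, Finset.mem_biUnion]
    constructor
    · rintro ⟨h1, h2, h3⟩
      refine ⟨f.natDegree, Finset.mem_range.2 (Nat.lt_succ_of_le h2), ?_⟩
      unfold Sm
      exact Finset.mem_filter.2 ⟨mem_Mn.2 ⟨h1, rfl⟩, h3⟩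
    · rintro ⟨i, hi, hf⟩
      unfold Sm at hf
      rw [Finset.mem_filter, mem_Mn] at hf
      exact ⟨hf.1.1, by rw [hf.1.2]; exact Nat.lt_succ_iff.1 (Finset.mem_range.1 hi), hf.2⟩
  rw [h1, Finset.sum_biUnion]
  · unfold kap
    refine Finset.sum_congr rfl fun i _ => Finset.sum_congr rfl fun f hf => ?_
    unfold Sm at hf
    rw [Finset.mem_filter, mem_Mn] at hf
    rw [hf.1.2]
  · intro i _ j _ hij
    change Disjoint (Sm r i) (Sm r j)
    rw [Finset.disjoint_left]
    intro f hf hg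
    unfold Sm at hf hg
    rw [Finset.mem_filter, mem_Mn] at hf hg
    exact hij (hf.1.2.symm.trans hg.1.2)

theorem sq_pos (F : Type) [Field F] [Fintype F] : 0 < (Real.sqrt (qr F))⁻¹ := by
  have h : (0 : ℝ) < qr F := by
    have : 0 < Fintype.card F := Fintype.card_pos
    exact_mod_cast this
  exact inv_pos.2 (Real.sqrt_pos.2 h)

theorem two_le_qr (F : Type) [Field F] [Fintype F] : (2 : ℝ) ≤ qr F := by
  have : 1 < Fintype.card F := Fintype.one_lt_card
  have h : 2 ≤ Fintype.card F := this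
  exact_mod_cast h

theorem sq_le (F : Type) [Field F] [Fintype F] : (Real.sqrt (qr F))⁻¹ ≤ 3 / 4 := by
  have h := two_le_qr F
  have h2 : (4 / 3 : ℝ) ≤ Real.sqrt (qr F) := by
    apply Real.le_sqrt_of_sq_le
    norm_num
    linarith
  have h3 : (0 : ℝ) < Real.sqrt (qr F) := by linarith
  rw [inv_le_comm₀ h3 (by norm_num)]
  linarith

/-- the sum over an image is at most the sum -/
theorem sum_image_le' {α β : Type} [DecidableEq β] (s : Finset α) (φ : α → β) (w : β → ℝ)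
    (hw : ∀ b, 0 ≤ w b) : ∑ b ∈ s.image φ, w b ≤ ∑ a ∈ s, w (φ a) := by
  rw [← Finset.sum_fiberwise_of_maps_to (g := φ) (t := s.image φ)
    (fun a ha => Finset.mem_image_of_mem φ ha)]
  refine Finset.sum_le_sum fun b hb => ?_
  obtain ⟨a, ha, hab⟩ := Finset.mem_image.1 hb
  have h1 : w b = w (φ a) := by rw [hab]
  rw [h1]
  exact Finset.single_le_sum (f := fun a => w (φ a)) (fun _ _ => hw _)
    (Finset.mem_filter.2 ⟨ha, hab⟩)

/-- first step: `kap` for `k + 1` -/
theorem kap_succ (hDKR : StDKR) {F : Type} [Field F] [Fintype F] (k : ℕ) (r : F[X]) (n : ℕ)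
    (hr : r.Monic) :
    kap (k + 1) r n ≤ (∑ f ∈ GG F (pS r) n, ((Real.sqrt (qr F))⁻¹) ^ f.natDegree) *
      kap k r n := by
  classical
  obtain ⟨-, hD, -, -⟩ := hDKR F
  rw [kap_eq, kap_eq, Finset.sum_mul_sum]
  have h0 := sq_pos F
  set s := (Real.sqrt (qr F))⁻¹ with hs
  have h1 : ∀ f ∈ GG F (pS r) n, (dk (k + 1) f : ℝ) * s ^ f.natDegree =
      ∑ g ∈ Dv f, (dk k (f / g) : ℝ) * s ^ f.natDegree := by
    intro f hf
    rw [hD k f (mem_GG.1 hf).1, Nat.cast_sum, Finset.sum_mul]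
  rw [Finset.sum_congr rfl h1, Finset.sum_sigma', ← Finset.sum_product']
  have hkey : ∀ x ∈ (GG F (pS r) n).sigma (fun f => Dv f), x.1 = x.2 * (x.1 / x.2) ∧
      x.2 ∈ GG F (pS r) n ∧ x.1 / x.2 ∈ GG F (pS r) n ∧
      x.1.natDegree = x.2.natDegree + (x.1 / x.2).natDegree := by
    rintro ⟨f, g⟩ hx
    rw [Finset.mem_sigma] at hx
    have hf := mem_GG.1 hx.1
    have hg := (mem_Dv hf.1.ne_zero).1 hx.2
    have e1 : g * (f / g) = f := EuclideanDomain.mul_div_cancel' hg.1.ne_zero hg.2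
    have hm : (f / g).Monic := hg.1.of_mul_monic_left (by rw [e1]; exact hf.1)
    have hdeg : f.natDegree = g.natDegree + (f / g).natDegree := by
      conv_lhs => rw [← e1]
      exact hg.1.natDegree_mul hm
    obtain ⟨j, hj⟩ := hf.2.2
    have hd2 : (f / g) ∣ f := ⟨g, by rw [mul_comm]; exact e1.symm⟩
    refine ⟨e1.symm, mem_GG.2 ⟨hg.1, ?_, ⟨j, hg.2.trans hj⟩⟩, mem_GG.2 ⟨hm, ?_, ⟨j, hd2.trans hj⟩⟩,
      hdeg⟩
    · have h8 : f.natDegree ≤ n := hf.2.1
      change g.natDegree ≤ n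
      omega
    · have h8 : f.natDegree ≤ n := hf.2.1
      change (f / g).natDegree ≤ n
      omega
  have h2 : ∑ x ∈ (GG F (pS r) n).sigma (fun f => Dv f),
        (dk k (x.1 / x.2) : ℝ) * s ^ x.1.natDegree =
      ∑ x ∈ (GG F (pS r) n).sigma (fun f => Dv f),
        (fun y : F[X] × F[X] => s ^ y.1.natDegree * ((dk k y.2 : ℝ) * s ^ y.2.natDegree))
          (x.2, x.1 / x.2) := by
    refine Finset.sum_congr rfl fun x hx => ?_
    obtain ⟨-, -, -, h⟩ := hkey x hx
    change (dk k (x.1 / x.2) : ℝ) * s ^ x.1.natDegree =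
      s ^ x.2.natDegree * ((dk k (x.1 / x.2) : ℝ) * s ^ (x.1 / x.2).natDegree)
    rw [h, pow_add]
    ring
  have h3 : Set.InjOn (fun x : (_ : F[X]) × F[X] => (x.2, x.1 / x.2))
      ((GG F (pS r) n).sigma (fun f => Dv f) : Set ((_ : F[X]) × F[X])) := by
    rintro ⟨f, g⟩ hx ⟨f', g'⟩ hy hxy
    have e1 : g = g' := congrArg Prod.fst hxy
    have e2 : f / g = f' / g' := congrArg Prod.snd hxy
    obtain ⟨a1, -, -, -⟩ := hkey ⟨f, g⟩ (Finset.mem_coe.1 hx)
    obtain ⟨b1, -, -, -⟩ := hkey ⟨f', g'⟩ (Finset.mem_coe.1 hy)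
    have e3 : f = f' := by
      have a2 : f = g * (f / g) := a1
      have b2 : f' = g' * (f' / g') := b1
      rw [a2, b2, e2, e1]
    subst e1 e3
    rfl
  have h4 := Finset.sum_image (s := (GG F (pS r) n).sigma (fun f => Dv f))
    (g := fun x : (_ : F[X]) × F[X] => (x.2, x.1 / x.2))
    (f := fun y : F[X] × F[X] => s ^ y.1.natDegree * ((dk k y.2 : ℝ) * s ^ y.2.natDegree)) h3
  have h5 : ∑ x ∈ (GG F (pS r) n).sigma (fun f => Dv f),
      (dk k (x.1 / x.2) : ℝ) * s ^ x.1.natDegree ≤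
      ∑ y ∈ GG F (pS r) n ×ˢ GG F (pS r) n,
        s ^ y.1.natDegree * ((dk k y.2 : ℝ) * s ^ y.2.natDegree) := by
    rw [h2, ← h4]
    refine Finset.sum_le_sum_of_subset_of_nonneg ?_ ?_
    · intro y hy
      obtain ⟨x, hx, rfl⟩ := Finset.mem_image.1 hy
      obtain ⟨-, h6, h7, -⟩ := hkey x hx
      exact Finset.mem_product.2 ⟨h6, h7⟩
    · intro y _ _
      positivity
  exact h5

theorem kap_zero (hDKR : StDKR) {F : Type} [Field F] [Fintype F] (r : F[X]) (n : ℕ) :
    kap 0 r n ≤ 1 := by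
  classical
  obtain ⟨⟨h1, h2⟩, -, -, -⟩ := hDKR F
  rw [kap_eq]
  have h3 : ∀ f ∈ GG F (pS r) n, f ≠ 1 →
      (dk 0 f : ℝ) * ((Real.sqrt (qr F))⁻¹) ^ f.natDegree = 0 := by
    intro f hf hf1
    rw [h2 f (mem_GG.1 hf).1 hf1]
    simp
  have h4 : (1 : F[X]) ∈ GG F (pS r) n :=
    mem_GG.2 ⟨monic_one, by simp, ⟨0, one_dvd _⟩⟩
  rw [Finset.sum_eq_single_of_mem 1 h4 h3, h1]
  simp

/-- all monic irreducible divisors are in `T` -/
def pT {F : Type} [Field F] (T : Finset F[X]) (f : F[X]) : Prop :=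
  ∀ Q : F[X], Q.Monic → Irreducible Q → Q ∣ f → Q ∈ T

/-- the elementary bound for the Euler factor -/
theorem factor_le {F : Type} [Field F] [Fintype F] (δ : ℝ) (hδ : 0 < δ) (d0 : ℕ)
    (hd0 : 2 ≤ δ * d0) (m N : ℕ) (hm : 1 ≤ m) :
    ∑ a ∈ Finset.range N, (((Real.sqrt (qr F))⁻¹) ^ m) ^ a ≤
      4 ^ (if m < d0 then 1 else 0) * qr F ^ (δ * m) := by
  have h0 := sq_pos F
  have h1 := sq_le F
  have hq := two_le_qr F
  set s := (Real.sqrt (qr F))⁻¹ with hs
  have h2 : s ^ m ≤ 3 / 4 := by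
    calc s ^ m ≤ s ^ 1 := pow_le_pow_of_le_one h0.le (by linarith) hm
      _ ≤ 3 / 4 := by rw [pow_one]; exact h1
  have h3 : 0 < s ^ m := pow_pos h0 m
  have h4 : ∑ a ∈ Finset.range N, (s ^ m) ^ a ≤ 4 := by
    rw [geom_sum_eq (by linarith)]
    rw [div_le_iff_of_neg (by linarith)]
    have : 0 < (s ^ m) ^ N := pow_pos h3 N
    linarith
  have h5 : (1 : ℝ) ≤ qr F ^ (δ * m) := by
    apply Real.one_le_rpow (by linarith)
    positivity
  by_cases hmd : m < d0
  · rw [if_pos hmd, pow_one]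
    linarith
  · rw [if_neg hmd, pow_zero, one_mul]
    have h6 : (2 : ℝ) ≤ δ * m := by
      have : (d0 : ℝ) ≤ m := by exact_mod_cast not_lt.1 hmd
      calc (2 : ℝ) ≤ δ * d0 := hd0
        _ ≤ δ * m := by gcongr
    have h7 : (4 : ℝ) ≤ qr F ^ (δ * m) := by
      calc (4 : ℝ) = 2 ^ (2 : ℝ) := by norm_num
        _ ≤ qr F ^ (2 : ℝ) := Real.rpow_le_rpow (by norm_num) hq (by norm_num)
        _ ≤ qr F ^ (δ * m) := Real.rpow_le_rpow_of_exponent_le (by linarith) h6
    linarith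

/-- second step: the Euler product bound -/
theorem sum_pT {F : Type} [Field F] [Fintype F] (δ : ℝ) (hδ : 0 < δ) (d0 : ℕ)
    (hd0 : 2 ≤ δ * d0) (n : ℕ) (T : Finset F[X]) :
    (∀ P ∈ T, P.Monic ∧ Irreducible P) →
    ∑ f ∈ GG F (pT T) n, ((Real.sqrt (qr F))⁻¹) ^ f.natDegree ≤
      4 ^ (∑ P ∈ T, if P.natDegree < d0 then 1 else 0) *
        qr F ^ (δ * ((∑ P ∈ T, P.natDegree : ℕ) : ℝ)) := by
  classical
  have h0 := sq_pos F
  have hq := two_le_qr F
  refine Finset.induction_on T ?_ ?_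
  · intro _
    have h1 : GG F (pT (∅ : Finset F[X])) n ⊆ {1} := by
      intro f hf
      obtain ⟨hf1, -, hf3⟩ := mem_GG.1 hf
      rw [Finset.mem_singleton]
      by_contra hne
      have hu : ¬ IsUnit f := fun h => hne (hf1.isUnit_iff.1 h)
      obtain ⟨g, hg1, hg2, hg3⟩ := Polynomial.exists_monic_irreducible_factor f hu
      exact absurd (hf3 g hg1 hg2 hg3) (Finset.notMem_empty g)
    calc ∑ f ∈ GG F (pT (∅ : Finset F[X])) n, ((Real.sqrt (qr F))⁻¹) ^ f.natDegree
        ≤ ∑ f ∈ {(1 : F[X])}, ((Real.sqrt (qr F))⁻¹) ^ f.natDegree :=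
          Finset.sum_le_sum_of_subset_of_nonneg h1 (fun _ _ _ => by positivity)
      _ = 1 := by simp
      _ ≤ _ := by simp
  · intro P T hPT ih hT
    have hP := hT P (Finset.mem_insert_self P T)
    have hT' : ∀ Q ∈ T, Q.Monic ∧ Irreducible Q := fun Q hQ =>
      hT Q (Finset.mem_insert_of_mem hQ)
    have ih' := ih hT'
    have hPd : 1 ≤ P.natDegree := by
      have := hP.2.natDegree_pos
      omega
    set s := (Real.sqrt (qr F))⁻¹ with hs
    have h1 : GG F (pT (insert P T)) n ⊆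
        ((Finset.range (n + 1)) ×ˢ (GG F (pT T) n)).image (fun x => P ^ x.1 * x.2) := by
      intro f hf
      obtain ⟨hf1, hf2, hf3⟩ := mem_GG.1 hf
      have hfm : FiniteMultiplicity P f :=
        FiniteMultiplicity.of_not_isUnit hP.2.not_isUnit hf1.ne_zero
      obtain ⟨c, hc1, hc2⟩ := hfm.exists_eq_pow_mul_and_not_dvd
      set a := multiplicity P f with ha
      have hcm : c.Monic := (hP.1.pow a).of_mul_monic_left (by rw [← hc1]; exact hf1)
      have hdeg : f.natDegree = a * P.natDegree + c.natDegree := by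
        rw [hc1, (hP.1.pow a).natDegree_mul hcm, hP.1.natDegree_pow]
      refine Finset.mem_image.2 ⟨(a, c), Finset.mem_product.2 ⟨?_, ?_⟩, hc1.symm⟩
      · rw [Finset.mem_range]
        have : a * 1 ≤ a * P.natDegree := Nat.mul_le_mul_left a hPd
        change a < n + 1
        omega
      · refine mem_GG.2 ⟨hcm, by change c.natDegree ≤ n; omega, ?_⟩
        intro Q hQ1 hQ2 hQ3
        have hQf : Q ∣ f := by rw [hc1]; exact hQ3.mul_left _
        rcases Finset.mem_insert.1 (hf3 Q hQ1 hQ2 hQf) with h | h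
        · rw [h] at hQ3
          exact absurd hQ3 hc2
        · exact h
    have h2 : ∑ f ∈ GG F (pT (insert P T)) n, s ^ f.natDegree ≤
        (∑ a ∈ Finset.range (n + 1), (s ^ P.natDegree) ^ a) *
          ∑ f ∈ GG F (pT T) n, s ^ f.natDegree := by
      calc ∑ f ∈ GG F (pT (insert P T)) n, s ^ f.natDegree
          ≤ ∑ f ∈ ((Finset.range (n + 1)) ×ˢ (GG F (pT T) n)).image (fun x => P ^ x.1 * x.2),
              s ^ f.natDegree :=
            Finset.sum_le_sum_of_subset_of_nonneg h1 (fun _ _ _ => by positivity)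
        _ ≤ ∑ x ∈ (Finset.range (n + 1)) ×ˢ (GG F (pT T) n),
              s ^ (P ^ x.1 * x.2).natDegree :=
            sum_image_le' _ _ (fun f : F[X] => s ^ f.natDegree) (fun _ => by positivity)
        _ = ∑ x ∈ (Finset.range (n + 1)) ×ˢ (GG F (pT T) n),
              (s ^ P.natDegree) ^ x.1 * s ^ x.2.natDegree := by
            refine Finset.sum_congr rfl fun x hx => ?_
            have hx2 := mem_GG.1 (Finset.mem_product.1 hx).2
            rw [(hP.1.pow x.1).natDegree_mul hx2.1, hP.1.natDegree_pow, pow_add, ← pow_mul,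
              mul_comm x.1]
        _ = _ := by
            rw [Finset.sum_product, Finset.sum_mul_sum]
    have h3 := factor_le (F := F) δ hδ d0 hd0 P.natDegree (n + 1) hPd
    rw [Finset.sum_insert hPT, Finset.sum_insert hPT, pow_add, Nat.cast_add, mul_add,
      Real.rpow_add (by linarith)]
    calc ∑ f ∈ GG F (pT (insert P T)) n, s ^ f.natDegree
        ≤ (∑ a ∈ Finset.range (n + 1), (s ^ P.natDegree) ^ a) *
          ∑ f ∈ GG F (pT T) n, s ^ f.natDegree := h2
      _ ≤ (4 ^ (if P.natDegree < d0 then 1 else 0) * qr F ^ (δ * P.natDegree)) *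
          (4 ^ (∑ P ∈ T, if P.natDegree < d0 then 1 else 0) *
            qr F ^ (δ * ((∑ P ∈ T, P.natDegree : ℕ) : ℝ))) := by
          refine mul_le_mul h3 ih' ?_ ?_
          · positivity
          · positivity
      _ = _ := by ring

/-- the degrees of the prime divisors -/
theorem sum_deg_le {F : Type} [Field F] [Fintype F] (r : F[X]) (hr : r.Monic)
    (T : Finset F[X]) (hT : ∀ P ∈ T, P.Monic ∧ Irreducible P ∧ P ∣ r) :
    ∑ P ∈ T, P.natDegree ≤ r.natDegree := by
  classical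
  have h1 : ∏ P ∈ T, P ∣ r := by
    refine Finset.prod_dvd_of_coprime (s := fun P : F[X] => P) ?_ (fun P hP => (hT P hP).2.2)
    intro P hP Q hQ hPQ
    change IsCoprime P Q
    obtain ⟨p1, p2, -⟩ := hT P hP
    obtain ⟨q1, q2, -⟩ := hT Q hQ
    refine p2.coprime_iff_not_dvd.2 fun h => hPQ ?_
    exact eq_of_monic_of_associated p1 q1 ((p2.dvd_irreducible_iff_associated q2).1 h)
  have h2 := Polynomial.natDegree_le_of_dvd h1 hr.ne_zero
  rwa [Polynomial.natDegree_prod_of_monic _ _ (fun P hP => (hT P hP).1)] at h2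

/-- **KAP**. -/
theorem hKAP (hDKR : StDKR) : StKAP := by
  intro F _ _ k ε hε
  classical
  have hq := two_le_qr F
  set δ : ℝ := ε / (k + 1) with hδd
  have hδ : 0 < δ := by positivity
  obtain ⟨d0, hd0'⟩ := exists_nat_ge (2 / δ)
  have hd0 : 2 ≤ δ * d0 := by
    rw [div_le_iff₀ hδ] at hd0'
    linarith
  set M : ℕ := ((Finset.range d0).biUnion (fun i => Mn F i)).card with hM
  refine ⟨(4 ^ M) ^ k, ?_, ?_⟩
  · exact one_le_pow₀ (one_le_pow₀ (by norm_num))
  · intro r n hr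
    set T : Finset F[X] := (Dv r).filter Irreducible with hT
    have hTm : ∀ P ∈ T, P.Monic ∧ Irreducible P ∧ P ∣ r := by
      intro P hP
      rw [hT, Finset.mem_filter, mem_Dv hr.ne_zero] at hP
      exact ⟨hP.1.1, hP.2, hP.1.2⟩
    have h1 := sum_pT (F := F) δ hδ d0 hd0 n T (fun P hP => ⟨(hTm P hP).1, (hTm P hP).2.1⟩)
    have h2 : ∑ f ∈ GG F (pS r) n, ((Real.sqrt (qr F))⁻¹) ^ f.natDegree ≤
        ∑ f ∈ GG F (pT T) n, ((Real.sqrt (qr F))⁻¹) ^ f.natDegree := by
      refine Finset.sum_le_sum_of_subset_of_nonneg ?_ (fun _ _ _ => by positivity)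
      intro f hf
      obtain ⟨a1, a2, j, a3⟩ := mem_GG.1 hf
      refine mem_GG.2 ⟨a1, a2, ?_⟩
      intro Q hQ1 hQ2 hQ3
      rw [hT, Finset.mem_filter, mem_Dv hr.ne_zero]
      exact ⟨⟨hQ1, hQ2.prime.dvd_of_dvd_pow (hQ3.trans a3)⟩, hQ2⟩
    have h3 : ∑ P ∈ T, (if P.natDegree < d0 then 1 else 0) ≤ M := by
      rw [← Finset.card_filter, hM]
      refine Finset.card_le_card ?_
      intro P hP
      rw [Finset.mem_filter] at hP
      exact Finset.mem_biUnion.2 ⟨P.natDegree, Finset.mem_range.2 hP.2,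
        mem_Mn.2 ⟨(hTm P hP.1).1, rfl⟩⟩
    have h4 := sum_deg_le r hr T hTm
    have h5 : ∑ f ∈ GG F (pS r) n, ((Real.sqrt (qr F))⁻¹) ^ f.natDegree ≤
        4 ^ M * qr F ^ (δ * r.natDegree) := by
      refine h2.trans (h1.trans ?_)
      refine mul_le_mul ?_ ?_ ?_ ?_
      · exact pow_le_pow_right₀ (by norm_num) h3
      · refine Real.rpow_le_rpow_of_exponent_le (by linarith) ?_
        have : ((∑ P ∈ T, P.natDegree : ℕ) : ℝ) ≤ r.natDegree := by exact_mod_cast h4
        gcongr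
      · positivity
      · positivity
    have h6 : ∀ m : ℕ, kap m r n ≤ (4 ^ M * qr F ^ (δ * r.natDegree)) ^ m := by
      intro m
      induction m with
      | zero => simpa using kap_zero hDKR r n
      | succ m ihm =>
        refine (kap_succ hDKR m r n hr).trans ?_
        rw [pow_succ, mul_comm ((4 ^ M * qr F ^ (δ * r.natDegree)) ^ m)]
        refine mul_le_mul h5 ihm ?_ ?_
        · rw [kap_eq]
          exact Finset.sum_nonneg fun _ _ => by positivity
        · positivity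
    refine (h6 k).trans ?_
    rw [mul_pow]
    refine mul_le_mul_of_nonneg_left ?_ (by positivity)
    rw [← Real.rpow_natCast, ← Real.rpow_mul (by linarith)]
    refine Real.rpow_le_rpow_of_exponent_le (by linarith) ?_
    have h7 : δ * (k + 1) = ε := by
      rw [hδd]
      field_simp
    have h8 : (0 : ℝ) ≤ r.natDegree := Nat.cast_nonneg _
    nlinarith [mul_nonneg hδ.le h8]

end

end Pool.Agent.Helper37.FC
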