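import Pool.Agent.Helper15.FC.St4

set_option autoImplicit false

/-!
Project FC, module WMC: the Weil bound for multiplicative characters of polynomials.
-/

open Polynomial

namespace Pool.Agent.Helper37.FC

open Pool.Agent.Helper15.FC

noncomputable section

/-- determinants in an exact sequence -/
theorem det_exact {K M1 V M2 : Type} [Field K] [AddCommGroup M1] [Module K M1]
    [AddCommGroup V] [Module K V] [AddCommGroup M2] [Module K M2] [Module.Finite K V]
    (i : M1 →ₗ[K] V) (π : V →ₗ[K] M2) (hi : Function.Injective i)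
    (hπ : Function.Surjective π) (hex : LinearMap.ker π = LinearMap.range i)
    (e1 : M1 →ₗ[K] M1) (e : V →ₗ[K] V) (e2 : M2 →ₗ[K] M2)
    (h1 : ∀ x, e (i x) = i (e1 x)) (h2 : ∀ x, π (e x) = e2 (π x)) :
    LinearMap.det e = LinearMap.det e1 * LinearMap.det e2 := by
  have he : LinearMap.range i ≤ (LinearMap.range i).comap e := by
    rintro x ⟨y, rfl⟩
    exact ⟨e1 y, (h1 y).symm⟩
  rw [LinearMap.det_eq_det_mul_det (LinearMap.range i) e he]
  congr 1
  · rw [← LinearMap.det_conj e1 (LinearEquiv.ofInjective i hi)]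
    congr 1
    refine LinearMap.ext fun x => ?_
    obtain ⟨y, rfl⟩ := (LinearEquiv.ofInjective i hi).surjective x
    apply Subtype.ext
    simp [h1]
  · set E : (V ⧸ LinearMap.range i) ≃ₗ[K] M2 :=
      (Submodule.quotEquivOfEq (LinearMap.range i) (LinearMap.ker π) hex.symm).trans
        (π.quotKerEquivOfSurjective hπ) with hE
    rw [← LinearMap.det_conj _ E]
    congr 1
    refine LinearMap.ext fun x => ?_
    obtain ⟨v, rfl⟩ := hπ x
    have h3 : E.symm (π v) = Submodule.Quotient.mk v := by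
      rw [LinearEquiv.symm_apply_eq]
      rfl
    change E ((Submodule.mapQ _ _ e he) (E.symm (π v))) = e2 (π v)
    rw [h3, Submodule.mapQ_apply, ← h2]
    rfl

variable {F : Type} [Field F]

/-- the norm from `F[X]/(P h)` -/
theorem norm_mul_left (P h g : F[X]) (hP : P.Monic) (hh : h.Monic) :
    Algebra.norm F (AdjoinRoot.mk (P * h) g) =
      Algebra.norm F (AdjoinRoot.mk P g) * Algebra.norm F (AdjoinRoot.mk h g) := by
  have hPh : (P * h).Monic := hP.mul hh
  have := hPh.finite_adjoinRoot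
  rw [Algebra.norm_apply, Algebra.norm_apply, Algebra.norm_apply]
  set i : AdjoinRoot P →ₗ[F] AdjoinRoot (P * h) :=
    (AdjoinRoot.mkₐ (P * h)).toLinearMap ∘ₗ (LinearMap.mulLeft F h) ∘ₗ
      (AdjoinRoot.modByMonicHom hP) with hi
  set π : AdjoinRoot (P * h) →ₗ[F] AdjoinRoot h :=
    (AdjoinRoot.mkₐ h).toLinearMap ∘ₗ (AdjoinRoot.modByMonicHom hPh) with hπ
  have hi1 : ∀ k : F[X], i (AdjoinRoot.mk P k) = AdjoinRoot.mk (P * h) (h * k) := by
    intro k
    change AdjoinRoot.mk (P * h) (h * (AdjoinRoot.modByMonicHom hP (AdjoinRoot.mk P k))) = _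
    rw [AdjoinRoot.modByMonicHom_mk, AdjoinRoot.mk_eq_mk]
    refine ⟨-(k /ₘ P), ?_⟩
    have := Polynomial.modByMonic_add_div k P
    linear_combination h * this
  have hπ1 : ∀ k : F[X], π (AdjoinRoot.mk (P * h) k) = AdjoinRoot.mk h k := by
    intro k
    change AdjoinRoot.mk h (AdjoinRoot.modByMonicHom hPh (AdjoinRoot.mk (P * h) k)) = _
    rw [AdjoinRoot.modByMonicHom_mk, AdjoinRoot.mk_eq_mk]
    refine ⟨-(P * (k /ₘ (P * h))), ?_⟩
    have := Polynomial.modByMonic_add_div k (P * h)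
    linear_combination this
  refine det_exact i π ?_ ?_ ?_ _ _ _ ?_ ?_
  · rw [injective_iff_map_eq_zero]
    intro a ha
    obtain ⟨k, rfl⟩ := AdjoinRoot.mk_surjective a
    rw [hi1, AdjoinRoot.mk_eq_zero] at ha
    rw [AdjoinRoot.mk_eq_zero]
    rw [mul_comm P h] at ha
    exact (mul_dvd_mul_iff_left hh.ne_zero).1 ha
  · intro a
    obtain ⟨k, rfl⟩ := AdjoinRoot.mk_surjective a
    exact ⟨AdjoinRoot.mk (P * h) k, hπ1 k⟩
  · ext a
    obtain ⟨k, rfl⟩ := AdjoinRoot.mk_surjective a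
    rw [LinearMap.mem_ker, hπ1, AdjoinRoot.mk_eq_zero, LinearMap.mem_range]
    constructor
    · rintro ⟨c, rfl⟩
      exact ⟨AdjoinRoot.mk P c, hi1 c⟩
    · rintro ⟨b, hb⟩
      obtain ⟨c, rfl⟩ := AdjoinRoot.mk_surjective b
      rw [hi1, AdjoinRoot.mk_eq_mk] at hb
      have h1 : h ∣ h * c - k := (Dvd.intro_left P rfl).trans hb
      have h2 : h ∣ h * c - (h * c - k) := (Dvd.intro c rfl).sub h1
      rwa [sub_sub_cancel] at h2
  · intro a
    obtain ⟨k, rfl⟩ := AdjoinRoot.mk_surjective a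
    rw [hi1]
    change AdjoinRoot.mk (P * h) g * AdjoinRoot.mk (P * h) (h * k) =
      i (AdjoinRoot.mk P g * AdjoinRoot.mk P k)
    rw [← map_mul, ← map_mul, hi1]
    congr 1
    ring
  · intro a
    obtain ⟨k, rfl⟩ := AdjoinRoot.mk_surjective a
    rw [hπ1]
    change π (AdjoinRoot.mk (P * h) g * AdjoinRoot.mk (P * h) k) =
      AdjoinRoot.mk h g * AdjoinRoot.mk h k
    rw [← map_mul, ← map_mul, hπ1]

theorem norm_pow_left (P h g : F[X]) (hP : P.Monic) (hh : h.Monic) (e : ℕ) :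
    Algebra.norm F (AdjoinRoot.mk (P ^ e * h) g) =
      Algebra.norm F (AdjoinRoot.mk P g) ^ e * Algebra.norm F (AdjoinRoot.mk h g) := by
  induction e with
  | zero =>
    rw [pow_zero, pow_zero, one_mul, one_mul]
  | succ e ih =>
    have h1 : P ^ (e + 1) * h = P * (P ^ e * h) := by ring
    rw [h1, norm_mul_left P (P ^ e * h) g hP ((hP.pow e).mul hh), ih]
    ring

/-- the norm of a nonunit is zero -/
theorem norm_nonunit {f : F[X]} (hf : f.Monic) (a : AdjoinRoot f) (ha : ¬ IsUnit a) :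
    Algebra.norm F a = 0 := by
  have := hf.finite_adjoinRoot
  by_contra hne
  apply ha
  rw [Algebra.norm_apply] at hne
  have h1 : IsUnit (LinearMap.det (Algebra.lmul F (AdjoinRoot f) a)) := isUnit_iff_ne_zero.2 hne
  rw [← LinearMap.isUnit_iff_isUnit_det, Module.End.isUnit_iff] at h1
  obtain ⟨b, hb⟩ := h1.2 1
  exact IsUnit.of_mul_eq_one b hb

/-- the character `χ` composed with the norm -/
def nchar {f : F[X]} (hf : f.Monic) (χ : MulChar F ℂ) : MulChar (AdjoinRoot f) ℂ where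
  toFun := fun a => χ (Algebra.norm F a)
  map_one' := by simp
  map_mul' := by
    intro a b
    simp
  map_nonunit' := by
    intro a ha
    change χ (Algebra.norm F a) = 0
    rw [norm_nonunit hf a ha]
    exact χ.map_nonunit not_isUnit_zero

theorem nchar_apply {f : F[X]} (hf : f.Monic) (χ : MulChar F ℂ) (a : AdjoinRoot f) :
    nchar hf χ a = χ (Algebra.norm F a) := rfl

/-- the norm of `x - root` -/
theorem norm_sub {f : F[X]} (hf : f.Monic) (x : F) :
    Algebra.norm F (AdjoinRoot.mk f (C x - X)) = f.eval x := by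
  have hm : minpoly F (AdjoinRoot.powerBasis hf.ne_zero).gen = f :=
    AdjoinRoot.minpoly_powerBasis_gen_of_monic hf
  have h1 := charpoly_leftMulMatrix (AdjoinRoot.powerBasis hf.ne_zero)
  rw [hm] at h1
  have h2 : AdjoinRoot.mk f (C x - X) =
      algebraMap F (AdjoinRoot f) x - (AdjoinRoot.powerBasis hf.ne_zero).gen := by
    rw [map_sub, AdjoinRoot.mk_X, AdjoinRoot.mk_C]
    rfl
  rw [h2, Algebra.norm_eq_matrix_det (AdjoinRoot.powerBasis hf.ne_zero).basis, map_sub,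
    AlgHom.commutes]
  conv_rhs => rw [← h1, Matrix.eval_charpoly]
  rfl

variable [Fintype F]

/-- nontriviality of `nchar` -/
theorem nchar_ne_one (χ : MulChar F ℂ) (f P : F[X]) (e : ℕ) (hf : f.Monic) (hP : P.Monic)
    (hPi : Irreducible P) (h1 : P ^ e ∣ f) (h2 : ¬ P ^ (e + 1) ∣ f) (hχ : χ ^ e ≠ 1) :
    nchar hf χ ≠ 1 := by
  obtain ⟨h, rfl⟩ := h1
  have hh : h.Monic := (hP.pow e).of_mul_monic_left hf
  have hPh : ¬ P ∣ h := by
    intro hd
    apply h2
    rw [pow_succ]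
    exact mul_dvd_mul_left _ hd
  obtain ⟨a, b, hab⟩ := hPi.coprime_iff_not_dvd.2 hPh
  obtain ⟨u, hu⟩ := MulChar.ne_one_iff.1 hχ
  rw [MulChar.pow_apply_coe] at hu
  haveI : Fact (Irreducible P) := ⟨hPi⟩
  haveI : Finite (AdjoinRoot P) := finite_AR hP
  obtain ⟨z, hz⟩ := FiniteField.norm_surjective F (AdjoinRoot P) (u : F)
  obtain ⟨g0, rfl⟩ := AdjoinRoot.mk_surjective z
  set g : F[X] := g0 * (b * h) + a * P with hg
  have e1 : AdjoinRoot.mk P g = AdjoinRoot.mk P g0 := by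
    rw [AdjoinRoot.mk_eq_mk]
    refine ⟨a - g0 * a, ?_⟩
    rw [hg]
    linear_combination g0 * hab
  have e2 : AdjoinRoot.mk h g = 1 := by
    rw [← map_one (AdjoinRoot.mk h), AdjoinRoot.mk_eq_mk]
    refine ⟨g0 * b - b, ?_⟩
    rw [hg]
    linear_combination hab
  have e3 : Algebra.norm F (AdjoinRoot.mk (P ^ e * h) g) = (u : F) ^ e := by
    rw [norm_pow_left P h g hP hh e, e1, e2, map_one, mul_one]
    congr 1
  have hunit : IsUnit (AdjoinRoot.mk (P ^ e * h) g) := by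
    by_contra hn
    have h3 := norm_nonunit hf _ hn
    rw [e3] at h3
    exact (pow_ne_zero e u.ne_zero) h3
  rw [MulChar.ne_one_iff]
  obtain ⟨w, hw⟩ := hunit
  refine ⟨w, ?_⟩
  rw [hw, nchar_apply, e3, map_pow]
  exact hu

/-- **WMC**. -/
theorem hWMC' (hWS1 : StWS1) (χ : MulChar F ℂ) (f P : F[X]) (e : ℕ) (hf : f.Monic)
    (hP : P.Monic) (hPi : Irreducible P) (h1 : P ^ e ∣ f) (h2 : ¬ P ^ (e + 1) ∣ f)
    (hχ : χ ^ e ≠ 1) :
    ‖∑ x : F, χ (f.eval x)‖ ≤ ((f.natDegree : ℝ) - 1) * Real.sqrt (qr F) := by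
  have hψ := nchar_ne_one χ f P e hf hP hPi h1 h2 hχ
  have hW := hWS1 F f 0 (nchar hf χ) 1 hf (Or.inr hψ)
  have h3 : ∀ x : F, (1 : MulChar (TN F 0) ℂ)
      (AdjoinRoot.mk (X ^ (0 + 1) : F[X]) (1 - C x * X)) = 1 := by
    intro x
    have h4 : AdjoinRoot.mk (X ^ (0 + 1) : F[X]) (1 - C x * X) = 1 := by
      rw [← map_one (AdjoinRoot.mk (X ^ (0 + 1) : F[X])), AdjoinRoot.mk_eq_mk]
      refine ⟨-C x, ?_⟩
      ring
    rw [h4, map_one]
  have h5 : ∀ x : F, χ (f.eval x) =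
      nchar hf χ (-1) * nchar hf χ (AdjoinRoot.mk f (X - C x)) := by
    intro x
    rw [← map_mul, nchar_apply, ← norm_sub hf x]
    congr 2
    rw [neg_one_mul, ← map_neg]
    congr 1
    ring
  have h6 : ∑ x : F, χ (f.eval x) = nchar hf χ (-1) *
      ∑ x : F, nchar hf χ (AdjoinRoot.mk f (X - C x)) *
        (1 : MulChar (TN F 0) ℂ) (AdjoinRoot.mk (X ^ (0 + 1) : F[X]) (1 - C x * X)) := by
    rw [Finset.mul_sum]
    refine Finset.sum_congr rfl fun x _ => ?_
    rw [h3, mul_one, h5]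
  have h7 : ‖nchar hf χ (-1)‖ = 1 := by
    have h8 : nchar hf χ (-1) ^ 2 = 1 := by
      rw [← map_pow]
      simp
    have h9 : ‖nchar hf χ (-1)‖ ^ 2 = 1 := by
      rw [← norm_pow, h8, norm_one]
    nlinarith [norm_nonneg (nchar hf χ (-1))]
  rw [h6, norm_mul, h7, one_mul]
  simpa using hW

/-- **WMC**. -/
theorem hWMC (hWS1 : StWS1) : StWMC := by
  intro F _ _ χ f P e hf hP hPi h1 h2 hχ
  exact hWMC' hWS1 χ f P e hf hP hPi h1 h2 hχ

end

end Pool.Agent.Helper37.FC
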